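import Mathlib

namespace Pool.Agent.Results.MP_6e3918_co.Cex

open SignType

/-- an oriented matroid on `E`, given by its covectors (axioms L0-L3) -/
structure OM (E : Type) where
  L : Set (E → SignType)
  zero_mem : (fun _ => 0) ∈ L
  neg_mem : ∀ X ∈ L, (fun e => - X e) ∈ L
  comp_mem : ∀ X ∈ L, ∀ Y ∈ L, (fun e => if X e = 0 then Y e else X e) ∈ L
  elim : ∀ X ∈ L, ∀ Y ∈ L, ∀ e, X e * Y e = -1 → ∃ Z ∈ L, Z e = 0 ∧
    ∀ f, X f * Y f ≠ -1 → Z f = if X f = 0 then Y f else X f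

variable {E : Type}

/-- `e` lies in the closure of `F` in the underlying matroid -/
def OM.InCl (O : OM E) (F : Set E) (e : E) : Prop := ∀ X ∈ O.L, (∀ f ∈ F, X f = 0) → X e = 0

def OM.Flat (O : OM E) (F : Set E) : Prop := ∀ e, O.InCl F e → e ∈ F

def OM.Indep (O : OM E) (I : Set E) : Prop := ∀ e ∈ I, ¬ O.InCl (I \ {e}) e

/-- rank in the underlying matroid -/
noncomputable def OM.rk (O : OM E) (A : Set E) : ℕ∞ := ⨆ (I : Set E) (_ : I ⊆ A ∧ O.Indep I), I.encard

def OM.ModularCut (O : OM E) (M : Set (Set E)) : Prop :=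
  (∀ F ∈ M, O.Flat F) ∧ (∀ F ∈ M, ∀ G, O.Flat G → F ⊆ G → G ∈ M) ∧
    ∀ F ∈ M, ∀ G ∈ M, O.rk F + O.rk G = O.rk (F ∪ G) + O.rk (F ∩ G) → F ∩ G ∈ M

/-- `O'` is a single-element extension of `O` by the new element `none` -/
def IsExt (O : OM E) (O' : OM (Option E)) : Prop := (fun X e => X (some e)) '' O'.L = O.L

/-- the modular cut determined by an extension -/
def cut (O : OM E) (O' : OM (Option E)) : Set (Set E) :=
  {F | O.Flat F ∧ O'.InCl (some '' F) none}

noncomputable def real [Finite E] (x y z : E → ℝ) : OM E where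
  L := {X | ∃ a b c d : ℝ, X = fun e => sign (a * x e + b * y e + c * z e + d)}
  zero_mem := ⟨0, 0, 0, 0, by simp⟩
  neg_mem := by
    rintro _ ⟨a, b, c, d, rfl⟩
    refine ⟨-a, -b, -c, -d, funext fun e => ?_⟩
    rw [← Left.sign_neg]; congr 1; ring
  comp_mem := by
    rintro _ ⟨a, b, c, d, rfl⟩ _ ⟨a', b', c', d', rfl⟩
    have key : ∀ u v : ℝ, ∀ᶠ t in nhdsWithin (0 : ℝ) (Set.Ioi 0),
        sign (u + t * v) = if sign u = 0 then sign v else sign u := by
      intro u v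
      have c : Filter.Tendsto (fun t : ℝ => u + t * v) (nhdsWithin 0 (Set.Ioi 0)) (nhds u) := by
        apply tendsto_nhdsWithin_of_tendsto_nhds
        have : Continuous fun t : ℝ => u + t * v := by fun_prop
        simpa using this.tendsto 0
      rcases lt_trichotomy u 0 with h | rfl | h
      · filter_upwards [c.eventually (gt_mem_nhds h)] with t ht
        simp [sign_neg h, sign_neg ht]
      · filter_upwards [self_mem_nhdsWithin] with t ht
        simp [sign_mul, sign_pos (show 0 < t from ht)]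
      · filter_upwards [c.eventually (lt_mem_nhds h)] with t ht
        simp [sign_pos h, sign_pos ht]
    obtain ⟨t, ht⟩ := (Filter.eventually_all.2 fun e => key (a * x e + b * y e + c * z e + d)
      (a' * x e + b' * y e + c' * z e + d')).exists
    refine ⟨a + t * a', b + t * b', c + t * c', d + t * d', funext fun e => ?_⟩
    rw [← ht e]; congr 1; ring
  elim := by
    rintro _ ⟨a, b, c, d, rfl⟩ _ ⟨a', b', c', d', rfl⟩ e he
    set u := a * x e + b * y e + c * z e + d with hu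
    set v := a' * x e + b' * y e + c' * z e + d' with hv
    have huv : u * v < 0 := by rwa [← sign_mul, sign_eq_neg_one_iff] at he
    have key : ∀ s t p q : ℝ, 0 < s → 0 < t → sign p * sign q ≠ -1 →
        sign (s * p + t * q) = if sign p = 0 then sign q else sign p := by
      intro s t p q hs ht h
      rcases lt_trichotomy p 0 with h1 | rfl | h1 <;> rcases lt_trichotomy q 0 with h2 | rfl | h2
      · rw [sign_neg (by nlinarith), sign_neg h1]; simp
      · rw [sign_neg (by nlinarith), sign_neg h1]; simp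
      · simp [sign_neg h1, sign_pos h2] at h
      · rw [sign_neg (by nlinarith), sign_neg h2]; simp
      · simp
      · rw [sign_pos (by nlinarith), sign_pos h2]; simp
      · simp [sign_pos h1, sign_neg h2] at h
      · rw [sign_pos (by nlinarith), sign_pos h1]; simp
      · rw [sign_pos (by nlinarith), sign_pos h1]; simp
    have u0 : 0 < |u| := abs_pos.2 (by rintro h; simp [h] at huv)
    have v0 : 0 < |v| := abs_pos.2 (by rintro h; simp [h] at huv)
    refine ⟨_, ⟨|v| * a + |u| * a', |v| * b + |u| * b', |v| * c + |u| * c', |v| * d + |u| * d',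
      rfl⟩, ?_, fun f hf => ?_⟩
    · rw [sign_eq_zero_iff]
      have : |v| * u + |u| * v = 0 := by
        rcases abs_cases u with ⟨h1, h1'⟩ | ⟨h1, h1'⟩ <;> rcases abs_cases v with ⟨h2, h2'⟩ | ⟨h2, h2'⟩ <;>
          rw [h1, h2] <;> nlinarith
      rw [← this, hu, hv]; ring
    · rw [← key _ _ _ _ v0 u0 hf]; congr 1; ring

def xx : Fin 9 → ℝ := ![1, -1, 0, 0, 0, 1, 0, 0, 1]
def yy : Fin 9 → ℝ := ![0, 0, 1, 1, -1, 0, 0, 0, 1]
def zz : Fin 9 → ℝ := ![0, 0, -1, 0, 0, 1, 1, -1, 0]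

noncomputable def O0 : OM (Fin 9) := real xx yy zz
noncomputable def O1 : OM (Option (Fin 9)) :=
  real (fun e => e.elim 0 xx) (fun e => e.elim 0 yy) (fun e => e.elim 0 zz)

lemma inCl (F : Set (Fin 9)) (e : Fin 9) : O0.InCl F e ↔ ∀ a b c d : ℝ,
    (∀ f ∈ F, a * xx f + b * yy f + c * zz f + d = 0) → a * xx e + b * yy e + c * zz e + d = 0 := by
  constructor
  · intro h a b c d h'
    simpa using h _ ⟨a, b, c, d, rfl⟩ (by simpa using h')
  · rintro h _ ⟨a, b, c, d, rfl⟩ h'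
    simpa using h a b c d (by simpa using h')

def H : Fin 3 → Set (Fin 9) := ![{0, 1, 2}, {3, 4, 5}, {6, 7, 8}]

def M' : Set (Set (Fin 9)) := {F | F = Set.univ ∨ ∃ j, F = H j}

lemma flatH (j : Fin 3) : O0.Flat (H j) := by
  intro e he
  rw [inCl] at he
  fin_cases j
  · have := he 0 1 1 0 (by simp [H, xx, yy, zz])
    fin_cases e <;> simp_all [H, xx, yy, zz]
  · have := he 1 0 (-1) 0 (by simp [H, xx, yy, zz])
    fin_cases e <;> simp_all [H, xx, yy, zz]
  · have := he 1 (-1) 0 0 (by simp [H, xx, yy, zz])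
    fin_cases e <;> simp_all [H, xx, yy, zz]

lemma upH (j : Fin 3) (G : Set (Fin 9)) (hG : O0.Flat G) (h : H j ⊆ G) : G ∈ M' := by
  by_cases e : G ⊆ H j
  · exact Or.inr ⟨j, e.antisymm h⟩
  obtain ⟨g, g1, g2⟩ := Set.not_subset.1 e
  refine Or.inl (Set.eq_univ_of_forall fun f => hG f ((inCl _ _).2 fun a b c d h' => ?_))
  have k0 := h' g g1
  have k1 : ∀ f ∈ H j, a * xx f + b * yy f + c * zz f + d = 0 := fun f hf => h' f (h hf)
  have : a = 0 ∧ b = 0 ∧ c = 0 ∧ d = 0 := by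
    clear h' h e hG g1
    fin_cases j <;> fin_cases g <;> simp [H, xx, yy, zz] at g2 k0 k1 <;>
      (obtain ⟨k1, k2, k3⟩ := k1; refine ⟨?_, ?_, ?_, ?_⟩ <;> linarith)
  simp [this]

lemma indepH (j : Fin 3) : O0.Indep (H j) := by
  intro e he h
  rw [inCl] at h
  fin_cases j <;> simp only [H] at he <;> rcases he with rfl | rfl | rfl
  · simpa [xx, yy, zz] using h 1 (-1) 0 1 (by simp [H, xx, yy, zz])
  · simpa [xx, yy, zz] using h (-1) (-1) 0 1 (by simp [H, xx, yy, zz])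
  · simpa [xx, yy, zz] using h 0 1 0 0 (by simp [H, xx, yy, zz])
  · simpa [xx, yy, zz] using h (-1) 1 0 1 (by simp [H, xx, yy, zz])
  · simpa [xx, yy, zz] using h (-1) (-1) 0 1 (by simp [H, xx, yy, zz])
  · simpa [xx, yy, zz] using h 1 0 0 0 (by simp [H, xx, yy, zz])
  · simpa [xx, yy, zz] using h (-1) 0 1 1 (by simp [H, xx, yy, zz])
  · simpa [xx, yy, zz] using h (-1) 0 (-1) 1 (by simp [H, xx, yy, zz])
  · simpa [xx, yy, zz] using h 1 0 0 0 (by simp [H, xx, yy, zz])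

lemma cardH (j : Fin 3) : (H j).encard = 3 := by
  fin_cases j <;> exact Set.encard_eq_three.2 ⟨_, _, _, by decide, by decide, by decide, rfl⟩

lemma rkH (j : Fin 3) : 3 ≤ O0.rk (H j) :=
  le_iSup₂_of_le (f := fun (I : Set (Fin 9)) (_ : I ⊆ H j ∧ O0.Indep I) => I.encard) (H j)
    ⟨subset_rfl, indepH j⟩ (cardH j).ge

lemma rkU (i j : Fin 3) (h : i ≠ j) : O0.rk (H i ∪ H j) ≤ 5 := by
  refine iSup₂_le fun I hI => ?_
  have hne : I ≠ H i ∪ H j := by
    rintro rfl
    have key : ∀ e ∈ H i ∪ H j, ¬ ∀ a b c d : ℝ,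
        (∀ f ∈ (H i ∪ H j) \ {e}, a * xx f + b * yy f + c * zz f + d = 0) →
          a * xx e + b * yy e + c * zz e + d = 0 := fun e he => by
      rw [← inCl]; exact hI.2 e he
    clear hI
    have k1 : ∀ (S : Set (Fin 9)) (p q r s : Fin 9), q ∈ S → r ∈ S → s ∈ S →
        (xx p + xx q = xx r + xx s ∧ yy p + yy q = yy r + yy s ∧ zz p + zz q = zz r + zz s) →
        ∀ a b c d : ℝ, (∀ f ∈ S, a * xx f + b * yy f + c * zz f + d = 0) →
          a * xx p + b * yy p + c * zz p + d = 0 := by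
      rintro S p q r s hq hr hs ⟨e1, e2, e3⟩ a b c d h
      linear_combination h r hr + h s hs - h q hq + a * e1 + b * e2 + c * e3
    fin_cases i <;> fin_cases j <;> simp only [ne_eq, not_true_eq_false] at h
    · exact key 0 (by simp [H]) (k1 _ 0 1 3 4 (by simp [H]) (by simp [H]) (by simp [H]) (by simp [xx, yy, zz]))
    · exact key 0 (by simp [H]) (k1 _ 0 1 6 7 (by simp [H]) (by simp [H]) (by simp [H]) (by simp [xx, yy, zz]))
    · exact key 0 (by simp [H]) (k1 _ 0 1 3 4 (by simp [H]) (by simp [H]) (by simp [H]) (by simp [xx, yy, zz]))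
    · exact key 3 (by simp [H]) (k1 _ 3 4 6 7 (by simp [H]) (by simp [H]) (by simp [H]) (by simp [xx, yy, zz]))
    · exact key 0 (by simp [H]) (k1 _ 0 1 6 7 (by simp [H]) (by simp [H]) (by simp [H]) (by simp [xx, yy, zz]))
    · exact key 3 (by simp [H]) (k1 _ 3 4 6 7 (by simp [H]) (by simp [H]) (by simp [H]) (by simp [xx, yy, zz]))
  have h1 := (Set.toFinite I).encard_lt_encard (ssubset_of_subset_of_ne hI.1 hne)
  have h2 := Set.encard_union_le (H i) (H j)
  rw [cardH, cardH] at h2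
  exact Order.le_of_lt_add_one (h1.trans_le (h2.trans (by norm_num)))

lemma disjH (i j : Fin 3) (h : i ≠ j) : H i ∩ H j = ∅ := by
  ext e
  fin_cases i <;> fin_cases j <;> simp only [ne_eq, not_true_eq_false] at h <;>
    fin_cases e <;> simp [H]

lemma modcut : O0.ModularCut M' := by
  refine ⟨?_, ?_, ?_⟩
  · rintro F (rfl | ⟨j, rfl⟩)
    · exact fun e _ => trivial
    · exact flatH j
  · rintro F (rfl | ⟨j, rfl⟩) G hG h
    · exact Or.inl (Set.univ_subset_iff.1 h)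
    · exact upH j G hG h
  · rintro F (rfl | ⟨i, rfl⟩) G hG h
    · simpa using hG
    · rcases hG with rfl | ⟨j, rfl⟩
      · exact Or.inr ⟨i, by simp⟩
      · by_cases e : i = j
        · exact Or.inr ⟨i, by simp [e]⟩
        · exfalso
          have h0 : O0.rk ∅ = 0 := by
            refine le_antisymm (iSup₂_le fun I hI => ?_) (by simp)
            rw [Set.subset_empty_iff.1 hI.1]; simp
          rw [disjH i j e, h0, add_zero] at h
          have := (add_le_add (rkH i) (rkH j)).trans (h.le.trans (rkU i j e))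
          norm_num at this

lemma norm (O : OM (Option (Fin 9))) (hO : IsExt O0 O) (hc : cut O0 O = M') (F : Set (Fin 9))
    (hF : O0.Flat F) (hF' : F ∉ M') : ∃ X ∈ O.L, X none = 1 ∧ ∃ a b c d : ℝ,
      (∀ e, X (some e) = sign (a * xx e + b * yy e + c * zz e + d)) ∧
      (∀ f ∈ F, a * xx f + b * yy f + c * zz f + d = 0) ∧ ¬ (a = 0 ∧ b = 0 ∧ c = 0 ∧ d = 0) := by
  have h1 : ∃ X ∈ O.L, X none = 1 ∧ ∀ f ∈ F, X (some f) = 0 := by
    have : ¬ O.InCl (some '' F) none := fun h => hF' (hc ▸ ⟨hF, h⟩)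
    simp only [OM.InCl, not_forall] at this
    obtain ⟨X, hX, h1, h2⟩ := this
    rcases hx : X none with _ | _ | _
    · exact absurd hx h2
    · refine ⟨_, O.neg_mem X hX, by simp [hx], fun f hf => ?_⟩
      simp [h1 _ ⟨f, hf, rfl⟩]
    · exact ⟨X, hX, hx, fun f hf => h1 _ ⟨f, hf, rfl⟩⟩
  obtain ⟨X, hX, h1, h2⟩ := h1
  have h3 : (fun e => X (some e)) ∈ O0.L := hO ▸ ⟨X, hX, rfl⟩
  obtain ⟨a, b, c, d, h3⟩ := h3
  have h4 := congrFun h3
  refine ⟨X, hX, h1, a, b, c, d, h4, fun f hf => ?_, ?_⟩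
  · have := h2 f hf
    rwa [h4, sign_eq_zero_iff] at this
  · rintro ⟨rfl, rfl, rfl, rfl⟩
    have hu : Set.univ ∈ cut O0 O := hc ▸ Or.inl rfl
    have := hu.2 X hX (by rintro _ ⟨f, -, rfl⟩; simp [h4])
    rw [h1] at this
    exact absurd this (by decide)

lemma el (O : OM (Option (Fin 9))) (hc : cut O0 O = M') (j : Fin 3) (X Y : Option (Fin 9) → SignType)
    (hX : X ∈ O.L) (hY : Y ∈ O.L) (x1 : X none = 1) (y1 : Y none = 1) (e : Fin 9)
    (h : ∀ f ∈ H j, f = e ∨ (X (some f) = 0 ∧ Y (some f) = 0)) : X (some e) * Y (some e) ≠ -1 := by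
  intro he
  obtain ⟨Z, hZ, z1, z2⟩ := O.elim X hX Y hY _ he
  have hu : H j ∈ cut O0 O := hc ▸ Or.inr ⟨j, rfl⟩
  have := hu.2 Z hZ (by
    rintro _ ⟨f, hf, rfl⟩
    rcases h f hf with rfl | ⟨a, b⟩
    · exact z1
    · rw [z2 _ (by simp [a])]; simp [a, b])
  rw [z2 none (by simp [x1, y1]), x1] at this
  simp at this

lemma flatZ (a b c : ℝ) : O0.Flat {e | a * xx e + b * yy e + c * zz e + 0 = 0} :=
  fun _ he => (inCl _ _).1 he a b c 0 fun _ h => h

lemma notM (F : Set (Fin 9)) (h : ¬ ∀ e, e ∈ F) (h' : ∀ j, ∃ e ∈ F, e ∉ H j) : F ∉ M' := by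
  rintro (rfl | ⟨j, rfl⟩)
  · exact h fun _ => trivial
  · obtain ⟨e, a, b⟩ := h' j
    exact b a

theorem result : ∃ (O : OM (Fin 9)) (O' : OM (Option (Fin 9))) (M : Set (Set (Fin 9))),
    IsExt O O' ∧ O.ModularCut M ∧ M ⊆ cut O O' ∧
      ∀ O'' : OM (Option (Fin 9)), IsExt O O'' → cut O O'' ≠ M := by
  refine ⟨O0, O1, M', ?_, modcut, ?_, fun O hO hc => ?_⟩
  · ext X
    constructor
    · rintro ⟨_, ⟨a, b, c, d, rfl⟩, rfl⟩
      exact ⟨a, b, c, d, rfl⟩
    · rintro ⟨a, b, c, d, rfl⟩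
      exact ⟨_, ⟨a, b, c, d, rfl⟩, rfl⟩
  · intro F hF
    refine ⟨modcut.1 F hF, ?_⟩
    rintro _ ⟨a, b, c, d, rfl⟩ h
    have h' : ∀ f ∈ F, a * xx f + b * yy f + c * zz f + d = 0 := fun f hf => by
      simpa using h _ ⟨f, hf, rfl⟩
    have : d = 0 := by
      rcases hF with rfl | ⟨j, rfl⟩
      · have := h' 0 trivial; have := h' 1 trivial; simp [xx, yy, zz] at *; linarith
      · fin_cases j <;> simp [H, xx, yy, zz] at h' <;> linarith [h'.1, h'.2.1]
    simp [this]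
  · obtain ⟨X, hX, x1, a1, b1, c1, d1, x2, x3, x4⟩ := norm O hO hc _ (flatZ 1 0 0)
      (notM _ (fun h => by simpa [xx] using h 0) fun j => by
        fin_cases j
        exacts [⟨3, by simp [xx], by simp [H]⟩, ⟨6, by simp [xx], by simp [H]⟩, ⟨3, by simp [xx], by simp [H]⟩])
    obtain ⟨Y, hY, y1, a2, b2, c2, d2, y2, y3, y4⟩ := norm O hO hc _ (flatZ 0 1 0)
      (notM _ (fun h => by simpa [yy] using h 3) fun j => by
        fin_cases j
        exacts [⟨6, by simp [yy], by simp [H]⟩, ⟨6, by simp [yy], by simp [H]⟩, ⟨0, by simp [yy], by simp [H]⟩])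
    obtain ⟨Z, hZ, z1, a3, b3, c3, d3, z2, z3, z4⟩ := norm O hO hc _ (flatZ 0 0 1)
      (notM _ (fun h => by simpa [zz] using h 6) fun j => by
        fin_cases j
        exacts [⟨3, by simp [zz], by simp [H]⟩, ⟨0, by simp [zz], by simp [H]⟩, ⟨0, by simp [zz], by simp [H]⟩])
    have p1 := x3 3 (by simp [xx]); have p2 := x3 4 (by simp [xx]); have p3 := x3 6 (by simp [xx])
    have q1 := y3 0 (by simp [yy]); have q2 := y3 1 (by simp [yy]); have q3 := y3 6 (by simp [yy])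
    have r1 := z3 0 (by simp [zz]); have r2 := z3 1 (by simp [zz]); have r3 := z3 3 (by simp [zz])
    simp [xx, yy, zz] at p1 p2 p3 q1 q2 q3 r1 r2 r3
    obtain ⟨rfl, rfl, rfl⟩ : b1 = 0 ∧ c1 = 0 ∧ d1 = 0 := ⟨by linarith, by linarith, by linarith⟩
    obtain ⟨rfl, rfl, rfl⟩ : a2 = 0 ∧ c2 = 0 ∧ d2 = 0 := ⟨by linarith, by linarith, by linarith⟩
    obtain ⟨rfl, rfl, rfl⟩ : a3 = 0 ∧ b3 = 0 ∧ d3 = 0 := ⟨by linarith, by linarith, by linarith⟩
    have e1 := el O hc 0 Y Z hY hZ y1 z1 2 (by simp [H, y2, z2, yy, zz])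
    have e2 := el O hc 1 X Z hX hZ x1 z1 5 (by simp [H, x2, z2, xx, zz])
    have e3 := el O hc 2 X Y hX hY x1 y1 8 (by simp [H, x2, y2, xx, yy])
    simp only [x2, y2, z2, ← sign_mul, ne_eq, sign_eq_neg_one_iff] at e1 e2 e3
    simp [xx, yy, zz] at e1 e2 e3 x4 y4 z4
    have s1 : 0 < a1 * c3 := lt_of_le_of_ne e2 (mul_ne_zero x4 z4).symm
    have s2 : 0 < a1 * b2 := lt_of_le_of_ne e3 (mul_ne_zero x4 y4).symm
    nlinarith [mul_pos s1 s2, mul_self_nonneg a1]

end Pool.Agent.Results.MP_6e3918_co.Cex
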